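import Mathlib

/-!
# Computable bounds and the decidability of existence problems
-/

set_option autoImplicit false

namespace Pool.Agent.U644.EF

open Computable

variable {α : Type} [Primcodable α]

/-- sums of computable functions over initial segments -/
lemma sum_comp (F : α → ℕ → ℕ) (hF : Computable₂ F) (b : α → ℕ) (hb : Computable b) :
    Computable (fun a => ∑ i ∈ Finset.range (b a), F a i) := by
  have h : Computable fun a => Nat.rec (motive := fun _ => ℕ) 0 (fun y IH => IH + F a y) (b a) := by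
    refine Computable.nat_rec (h := fun (a : α) (p : ℕ × ℕ) => p.2 + F a p.1) hb (Computable.const 0) ?_
    have h1 : Computable fun (p : α × (ℕ × ℕ)) => F p.1 p.2.1 :=
      hF.comp Computable.fst (Computable.fst.comp Computable.snd)
    exact (Primrec.nat_add.to_comp).comp (Computable.snd.comp Computable.snd) h1
  refine h.of_eq fun a => ?_
  generalize b a = n
  induction n with
  | zero => simp
  | succ n ih => rw [Finset.sum_range_succ, ← ih]

/-- a computable bound for a computable function on initial segments -/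
lemma sup_comp (F : α → ℕ → ℕ) (hF : Computable₂ F) (b : α → ℕ) (hb : Computable b) :
    ∃ c : α → ℕ, Computable c ∧ ∀ a i, i < b a → F a i ≤ c a :=
  ⟨_, sum_comp F hF b hb, fun a i hi =>
    Finset.single_le_sum (f := F a) (fun _ _ => Nat.zero_le _) (Finset.mem_range.2 hi)⟩

/-- counting -/
lemma count_comp (f : α → ℕ → Bool) (hf : Computable₂ f) (b : α → ℕ) (hb : Computable b) :
    Computable (fun a => ((Finset.range (b a)).filter (fun i => f a i = true)).card) := by
  have h1 : Computable₂ (fun (a : α) (i : ℕ) => bif f a i then 1 else 0) :=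
    Computable.cond hf (Computable.const 1) (Computable.const 0)
  refine (sum_comp _ h1 b hb).of_eq fun a => ?_
  rw [Finset.card_filter]
  refine Finset.sum_congr rfl fun i _ => ?_
  cases f a i <;> simp

/-- bounded existence -/
lemma bex_comp (f : α → ℕ → Bool) (hf : Computable₂ f) (b : α → ℕ) (hb : Computable b) :
    ∃ g : α → Bool, Computable g ∧ ∀ a, g a = true ↔ ∃ i, i < b a ∧ f a i = true := by
  have h1 := count_comp f hf b hb
  refine ⟨fun a => decide (0 < ((Finset.range (b a)).filter (fun i => f a i = true)).card), ?_, ?_⟩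
  · have h2 : PrimrecPred fun n : ℕ => 0 < n := Primrec.nat_lt.comp (Primrec.const 0) Primrec.id
    exact h2.decide.to_comp.comp h1
  · intro a
    rw [decide_eq_true_eq, Finset.card_pos]
    constructor
    · rintro ⟨i, hi⟩
      rw [Finset.mem_filter, Finset.mem_range] at hi
      exact ⟨i, hi⟩
    · rintro ⟨i, hi⟩
      exact ⟨i, by rw [Finset.mem_filter, Finset.mem_range]; exact hi⟩

/-- an unbounded search that always succeeds -/
lemma find_comp (f : α → ℕ → Bool) (hf : Computable₂ f) (h : ∀ a, ∃ n, f a n = true) :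
    ∃ g : α → ℕ, Computable g ∧ ∀ a, f a (g a) = true := by
  have hP : ComputablePred (fun p : α × ℕ => f p.1 p.2 = true) := by
    refine ComputablePred.computable_iff.2 ⟨fun p => f p.1 p.2, hf, ?_⟩
    rfl
  have := Computable.find (P := fun a n => f a n = true) hP h
  exact ⟨_, this, fun a => Nat.find_spec (h a)⟩

/-- Objects, data, signatures and heights, all numbered. -/
structure Thy where
  good : ℕ → ℕ → Prop
  good_dec : ComputablePred fun p : ℕ × ℕ => good p.1 p.2
  height : ℕ → ℝ
  sig : ℕ → ℕ → ℕ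
  sig_comp : Computable₂ sig
  sigBound : ℕ → ℕ
  sigBound_comp : Computable sigBound
  sig_lt : ∀ d X, good d X → sig d X < sigBound d
  bound : ℕ → ℕ → ℕ
  bound_comp : Computable₂ bound
  bound_spec : ∀ d X Y, good d X → good d Y → sig d X = sig d Y → height Y ≤ bound d X
  list : ℕ → ℕ → ℕ
  list_comp : Computable₂ list
  list_spec : ∀ (d X n : ℕ), good d X → height X ≤ n → ∃ Y, Y < list d n ∧ good d Y ∧ sig d Y = sig d X

/-- some object has the signature -/
def Occ (T : Thy) (d s : ℕ) : Prop := ∃ X, T.good d X ∧ T.sig d X = s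

/-- a Boolean test: the object `X` is good for `d` and has the signature `s` -/
lemma test (T : Thy) : ∃ t : ℕ × ℕ → ℕ → Bool, Computable₂ t ∧
    ∀ d s X, t (d, s) X = true ↔ T.good d X ∧ T.sig d X = s := by
  obtain ⟨G, hG, hG'⟩ := ComputablePred.computable_iff.1 T.good_dec
  refine ⟨fun p X => G (p.1, X) && decide (T.sig p.1 X = p.2), ?_, ?_⟩
  · have h1 : Computable fun q : (ℕ × ℕ) × ℕ => G (q.1.1, q.2) :=
      hG.comp ((Computable.fst.comp Computable.fst).pair Computable.snd)
    have h2 : Computable fun q : (ℕ × ℕ) × ℕ => decide (T.sig q.1.1 q.2 = q.1.2) :=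
      (Primrec.eq (α := ℕ)).decide.to_comp.comp (T.sig_comp.comp (Computable.fst.comp Computable.fst) Computable.snd)
        (Computable.snd.comp Computable.fst)
    exact Primrec.and.to_comp.comp h1 h2
  · intro d s X
    have h3 : T.good d X ↔ G (d, X) = true := by
      have := congrFun hG' (d, X)
      simp only at this
      rw [this]
    rw [Bool.and_eq_true, decide_eq_true_eq, h3]

/-- the existence problem is recursively enumerable -/
lemma occ_re (T : Thy) : REPred fun p : ℕ × ℕ => Occ T p.1 p.2 := by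
  obtain ⟨t, ht, ht'⟩ := test T
  have h1 : Partrec fun p : ℕ × ℕ => Nat.rfind fun n => (Part.some (t p n) : Part Bool) := Partrec.rfind ht.partrec₂
  refine h1.dom_re.of_eq fun p => ?_
  rw [Nat.rfind_dom]
  constructor
  · rintro ⟨n, hn, -⟩
    rw [Part.mem_some_iff] at hn
    exact ⟨n, (ht' p.1 p.2 n).1 hn.symm⟩
  · rintro ⟨X, hX⟩
    refine ⟨X, ?_, fun _ => trivial⟩
    rw [Part.mem_some_iff]
    exact ((ht' p.1 p.2 X).2 hX).symm

/-- the bound gives a decision procedure -/
lemma dec_of_bound (T : Thy) (c : ℕ → ℕ) (hc : Computable c) (h : ∀ d X, T.good d X → T.height X ≤ c d) :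
    ComputablePred fun p : ℕ × ℕ => Occ T p.1 p.2 := by
  obtain ⟨t, ht, ht'⟩ := test T
  obtain ⟨g, hg, hg'⟩ := bex_comp t ht (fun p => T.list p.1 (c p.1))
    (T.list_comp.comp Computable.fst (hc.comp Computable.fst))
  refine ComputablePred.computable_iff.2 ⟨g, hg, ?_⟩
  funext p
  refine propext ⟨?_, ?_⟩
  · rintro ⟨X, hX, hs⟩
    obtain ⟨Y, hY, hY', hs'⟩ := T.list_spec p.1 X (c p.1) hX (h _ _ hX)
    exact (hg' p).2 ⟨Y, hY, (ht' p.1 p.2 Y).2 ⟨hY', hs'.trans hs⟩⟩
  · intro hp
    obtain ⟨X, -, hX⟩ := (hg' p).1 hp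
    exact ⟨X, (ht' p.1 p.2 X).1 hX⟩

/-- a decision procedure gives a bound -/
lemma bound_of_dec (T : Thy) (h : ComputablePred fun p : ℕ × ℕ => Occ T p.1 p.2) :
    ∃ c : ℕ → ℕ, Computable c ∧ ∀ d X, T.good d X → T.height X ≤ c d := by
  obtain ⟨t, ht, ht'⟩ := test T
  obtain ⟨e, he, he'⟩ := ComputablePred.computable_iff.1 h
  have he2 : ∀ p : ℕ × ℕ, e p = true ↔ Occ T p.1 p.2 := by
    intro p
    exact (Iff.of_eq (congrFun he' p)).symm
  have h1 : Computable₂ (fun (p : ℕ × ℕ) (n : ℕ) => !(e p) || t p n) :=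
    Primrec.or.to_comp.comp (Primrec.not.to_comp.comp (he.comp Computable.fst)) ht
  obtain ⟨g, hg, hg'⟩ := find_comp _ h1 (fun p => by
    by_cases hp : e p = true
    · obtain ⟨X, hX⟩ := (he2 p).1 hp
      exact ⟨X, by rw [Bool.or_eq_true]; exact Or.inr ((ht' p.1 p.2 X).2 hX)⟩
    · exact ⟨0, by rw [Bool.or_eq_true]; exact Or.inl (by simp [hp])⟩)
  obtain ⟨c, hc, hc'⟩ := sup_comp (fun d s => T.bound d (g (d, s)))
    (T.bound_comp.comp Computable.fst (hg.comp (Computable.fst.pair Computable.snd))) T.sigBound T.sigBound_comp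
  refine ⟨c, hc, fun d X hX => ?_⟩
  have hs := T.sig_lt d X hX
  have hocc : e (d, T.sig d X) = true := (he2 _).2 ⟨X, hX, rfl⟩
  have h2 := hg' (d, T.sig d X)
  rw [hocc, Bool.not_true, Bool.false_or, ht'] at h2
  have h3 : T.height X ≤ T.bound d (g (d, T.sig d X)) := T.bound_spec d _ X h2.1 hX h2.2
  exact h3.trans (by exact_mod_cast hc' d _ hs)

/-- the number of signatures which occur -/
noncomputable def num (T : Thy) (d : ℕ) : ℕ := Nat.card {s // Occ T d s}

lemma occ_lt (T : Thy) {d s : ℕ} (h : Occ T d s) : s < T.sigBound d := by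
  obtain ⟨X, hX, rfl⟩ := h
  exact T.sig_lt d X hX

lemma num_eq (T : Thy) (d : ℕ) (P : ℕ → Prop) [DecidablePred P] (hP : ∀ s, s < T.sigBound d → (P s ↔ Occ T d s)) :
    num T d = ((Finset.range (T.sigBound d)).filter P).card := by
  unfold num
  refine Nat.subtype_card _ fun s => ?_
  rw [Finset.mem_filter, Finset.mem_range]
  constructor
  · rintro ⟨h1, h2⟩
    exact (hP s h1).1 h2
  · intro h
    exact ⟨occ_lt T h, (hP s (occ_lt T h)).2 h⟩

/-- a decision procedure gives the number -/
lemma num_of_dec (T : Thy) (h : ComputablePred fun p : ℕ × ℕ => Occ T p.1 p.2) : Computable (num T) := by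
  obtain ⟨e, he, he'⟩ := ComputablePred.computable_iff.1 h
  have he2 : ∀ p : ℕ × ℕ, e p = true ↔ Occ T p.1 p.2 := by
    intro p
    exact (Iff.of_eq (congrFun he' p)).symm
  refine (count_comp (fun d s => e (d, s)) (he.comp (Computable.fst.pair Computable.snd)) T.sigBound
    T.sigBound_comp).of_eq fun d => ?_
  exact (num_eq T d _ fun s _ => he2 (d, s)).symm

/-- the number gives a decision procedure -/
lemma dec_of_num (T : Thy) (hN : Computable (num T)) : ComputablePred fun p : ℕ × ℕ => Occ T p.1 p.2 := by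
  classical
  obtain ⟨t, ht, ht'⟩ := test T
  obtain ⟨v, hv, hv'⟩ := bex_comp (α := (ℕ × ℕ) × ℕ) (fun q X => t q.1 X)
    (ht.comp (Computable.fst.comp Computable.fst) Computable.snd) (fun q => q.2) Computable.snd
  have hcnt := count_comp (α := ℕ × ℕ) (fun q s => v ((q.1, s), q.2))
    (hv.comp (((Computable.fst.comp Computable.fst).pair Computable.snd).pair (Computable.snd.comp Computable.fst)))
    (fun q => T.sigBound q.1) (T.sigBound_comp.comp Computable.fst)
  set cnt : ℕ × ℕ → ℕ := fun q => ((Finset.range (T.sigBound q.1)).filter (fun s => v ((q.1, s), q.2) = true)).card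
    with hcntdef
  have hf : Computable₂ (fun (d n : ℕ) => decide (cnt (d, n) = num T d)) :=
    (Primrec.eq (α := ℕ)).decide.to_comp.comp (hcnt.comp (Computable.fst.pair Computable.snd))
      (hN.comp Computable.fst)
  have hvocc : ∀ d s n, v ((d, s), n) = true → Occ T d s := by
    intro d s n hvn
    obtain ⟨X, -, hX⟩ := (hv' ((d, s), n)).1 hvn
    exact ⟨X, (ht' d s X).1 hX⟩
  have hocc : ∀ d s, Occ T d s → ∃ m, ∀ n, m < n → v ((d, s), n) = true := by
    rintro d s ⟨X, hX⟩
    exact ⟨X, fun n hn => (hv' ((d, s), n)).2 ⟨X, hn, (ht' d s X).2 hX⟩⟩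
  have hex : ∀ d, ∃ n, decide (cnt (d, n) = num T d) = true := by
    intro d
    have hch : ∀ s, ∃ m, Occ T d s → ∀ n, m < n → v ((d, s), n) = true := by
      intro s
      by_cases hs : Occ T d s
      · obtain ⟨m, hm⟩ := hocc d s hs
        exact ⟨m, fun _ => hm⟩
      · exact ⟨0, fun h => absurd h hs⟩
    choose m hm using hch
    refine ⟨(∑ s ∈ Finset.range (T.sigBound d), m s) + 1, ?_⟩
    rw [decide_eq_true_eq]
    refine (num_eq T d _ fun s hs => ⟨hvocc d s _, fun h => hm s h _ ?_⟩).symm
    exact Nat.lt_succ_of_le (Finset.single_le_sum (f := m) (fun _ _ => Nat.zero_le _) (Finset.mem_range.2 hs))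
  obtain ⟨g, hg, hg'⟩ := find_comp _ hf hex
  have hdec : Computable fun p : ℕ × ℕ => decide (p.2 < T.sigBound p.1) && v (p, g p.1) :=
    Primrec.and.to_comp.comp
      (Primrec.nat_lt.decide.to_comp.comp Computable.snd (T.sigBound_comp.comp Computable.fst))
      (hv.comp (Computable.id.pair (hg.comp Computable.fst)))
  refine ComputablePred.computable_iff.2 ⟨_, hdec, ?_⟩
  funext p
  refine propext ⟨?_, ?_⟩
  · intro h
    have hlt := occ_lt T h
    rw [Bool.and_eq_true, decide_eq_true_eq]
    refine ⟨hlt, ?_⟩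
    have h1 := hg' p.1
    rw [decide_eq_true_eq, num_eq T p.1 (fun s => Occ T p.1 s) (fun _ _ => Iff.rfl)] at h1
    have hsub : (Finset.range (T.sigBound p.1)).filter (fun s => v ((p.1, s), g p.1) = true) ⊆
        (Finset.range (T.sigBound p.1)).filter (fun s => Occ T p.1 s) := by
      intro s hs
      rw [Finset.mem_filter] at hs ⊢
      exact ⟨hs.1, hvocc _ _ _ hs.2⟩
    have heq := Finset.eq_of_subset_of_card_le hsub h1.symm.le
    have hmem : p.2 ∈ (Finset.range (T.sigBound p.1)).filter (fun s => Occ T p.1 s) := by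
      rw [Finset.mem_filter, Finset.mem_range]
      exact ⟨hlt, h⟩
    rw [← heq, Finset.mem_filter] at hmem
    exact hmem.2
  · intro h
    rw [Bool.and_eq_true] at h
    exact hvocc _ _ _ h.2

theorem main (T : Thy) : List.TFAE [
    ∃ c : ℕ → ℕ, Computable c ∧ ∀ d X, T.good d X → T.height X ≤ c d,
    ComputablePred fun p : ℕ × ℕ => Occ T p.1 p.2,
    REPred fun p : ℕ × ℕ => ¬ Occ T p.1 p.2,
    Computable (num T)] := by
  tfae_have 1 → 2 := fun ⟨c, hc, h⟩ => dec_of_bound T c hc h
  tfae_have 2 → 1 := bound_of_dec T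
  tfae_have 2 → 3 := fun h => h.not.to_re
  tfae_have 3 → 2 := fun h => ComputablePred.computable_iff_re_compl_re'.2 ⟨occ_re T, h⟩
  tfae_have 2 → 4 := num_of_dec T
  tfae_have 4 → 2 := dec_of_num T
  tfae_finish

end Pool.Agent.U644.EF
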