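import Mathlib

/-!
# Weil–Deligne representations and their Euler factors

`p` is a prime (below `q = p`), `G` the inertia group at `p`. An `ℓ`-adic representation of the
decomposition group at `p` gives a space `V`, the geometric Frobenius `F`, the monodromy operator `N`,
and the finite part `r(g)` of the action of inertia: `g` acts on `V` as `r(g) exp(t(g) N)`.
-/

set_option autoImplicit false

open Module Polynomial TensorProduct

namespace Pool.Agent.U644.EF

universe u v

section plain

variable {E : Type u} [Field E] {V V' V'' : Type v} [AddCommGroup V] [Module E V]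
  [AddCommGroup V'] [Module E V'] [AddCommGroup V''] [Module E V'']

/-- The element `κ (x ⊗ y)`. -/
def tm (κ : V ⊗[E] V' ≃ₗ[E] V'') (x : V) (y : V') : V'' := κ (x ⊗ₜ y)

/-- `A'' (x ⊗ y) = A x ⊗ A' y`. -/
def Multiplicative (κ : V ⊗[E] V' ≃ₗ[E] V'') (A : Module.End E V) (A' : Module.End E V')
    (A'' : Module.End E V'') : Prop := ∀ x y, A'' (tm κ x y) = tm κ (A x) (A' y)

/-- `N'' (x ⊗ y) = N x ⊗ y + x ⊗ N' y`. -/
def Leibniz (κ : V ⊗[E] V' ≃ₗ[E] V'') (N : Module.End E V) (N' : Module.End E V')
    (N'' : Module.End E V'') : Prop := ∀ x y, N'' (tm κ x y) = tm κ (N x) y + tm κ x (N' y)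

/-- `N e = f`, `N f = 0`, `F e = q e`, `F f = f`. -/
structure TateBasis (q : ℕ) (F N : Module.End E V) (e f : V) : Prop where
  N_e : N e = f
  N_f : N f = 0
  F_e : F e = (q : E) • e
  F_f : F f = f

end plain

/-- The space with the operators which is given by an `ℓ`-adic representation of the decomposition
group: `N F = q F N`, the `r(g)` commute with `N`, and `F` normalises them. -/
structure WDRep (G : Type) (E : Type u) [Field E] (q : ℕ) where
  /-- the space -/
  V : Type v
  [addCommGroup : AddCommGroup V]
  [module : Module E V]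
  [finite : Module.Finite E V]
  /-- the finite part of the action of inertia -/
  r : G → Module.End E V
  /-- the geometric Frobenius -/
  F : Module.End E V
  /-- the monodromy operator -/
  N : Module.End E V
  F_inj : Function.Injective F
  N_F : ∀ x, N (F x) = (q : E) • F (N x)
  r_N : ∀ g x, r g (N x) = N (r g x)
  r_F : ∀ g, ∃ g', ∀ x, r g (F x) = F (r g' x)

attribute [instance] WDRep.addCommGroup WDRep.module WDRep.finite

variable {G : Type} {E : Type u} [Field E] {q : ℕ}

namespace WDRep

/-- The vectors killed by `N ^ s` and fixed by the finite part of inertia. For `s = 1` these are the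
inertia invariants. -/
def inv (R : WDRep.{u, v} G E q) (s : ℕ) : Submodule E R.V :=
  LinearMap.ker (R.N ^ s) ⊓ ⨅ g, LinearMap.ker (R.r g - LinearMap.id)

variable {R : WDRep.{u, v} G E q}

lemma mem_inv {s : ℕ} {x : R.V} : x ∈ R.inv s ↔ (R.N ^ s) x = 0 ∧ ∀ g, R.r g x = x := by
  unfold inv
  rw [Submodule.mem_inf, Submodule.mem_iInf, LinearMap.mem_ker]
  refine and_congr_right fun _ => forall_congr' fun g => ?_
  rw [LinearMap.mem_ker, LinearMap.sub_apply, LinearMap.id_apply, sub_eq_zero]

lemma powN_F (s : ℕ) (x : R.V) : (R.N ^ s) (R.F x) = ((q : E) ^ s) • R.F ((R.N ^ s) x) := by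
  induction s generalizing x with
  | zero => simp
  | succ s ih =>
    rw [pow_succ, Module.End.mul_apply, R.N_F, map_smul, ih, smul_smul, Module.End.mul_apply,
      pow_succ, mul_comm]

lemma F_inv (s : ℕ) : ∀ x ∈ R.inv s, R.F x ∈ R.inv s := by
  intro x hx
  rw [mem_inv] at hx ⊢
  refine ⟨by rw [powN_F, hx.1, map_zero, smul_zero], fun g => ?_⟩
  obtain ⟨g', hg'⟩ := R.r_F g
  rw [hg', hx.2]

variable (R) in
/-- `det(1 - T F)` on `R.inv s`, the reversed characteristic polynomial of `F`. For `s = 1` this is
the inverse of the local Euler factor. -/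
noncomputable def factor (s : ℕ) : E[X] := (R.F.restrict (F_inv s)).charpoly.reverse

end WDRep

/-- `H^1` of a curve of genus one with split multiplicative reduction: there is a basis `e, f` with
`N e = f`, `N f = 0`, `F e = q e`, `F f = f`, and inertia acts unipotently. -/
def IsTate (U : WDRep.{u, v} G E q) : Prop :=
  (∀ g, U.r g = LinearMap.id) ∧ ∃ b : Basis (Fin 2) E U.V, TateBasis q U.F U.N (b 0) (b 1)

/-- `R''` is the tensor product of `R` and `U`. -/
def IsTensor (R U R'' : WDRep.{u, v} G E q) : Prop :=
  ∃ κ : R.V ⊗[E] U.V ≃ₗ[E] R''.V, Multiplicative κ R.F U.F R''.F ∧ Leibniz κ R.N U.N R''.N ∧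
    ∀ g, Multiplicative κ (R.r g) (U.r g) (R''.r g)

/-- A family of polynomials over the fields `E ℓ` which have rational coefficients and do not
depend on `ℓ`. -/
def Independent {Λ : Type} {E : Λ → Type u} [∀ l, Field (E l)] [∀ l, CharZero (E l)]
    (P : ∀ l, (E l)[X]) : Prop := ∃ Q : ℚ[X], ∀ l, P l = Q.map (algebraMap ℚ (E l))

end Pool.Agent.U644.EF
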